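import Pool.Agent.Work.MP_836e4b_nt.P.SWFin
import Pool.Agent.Work.MP_836e4b_nt.P.Rep3
import Pool.Agent.Work.MP_836e4b_nt.P.Rep5

namespace Pool.Agent.Results.MP_836e4b_nt.NotEigenAllWeights

open MP836e4b MP836e4b.P

private theorem strong (D k e j : ℕ) (hD : Odd D) (hsq : Squarefree D) (hk : 3 ≤ k) (he : 1 ≤ e)
    (hpar : jacobiSym (-1) D = (-1) ^ k) (hj : Odd (oddReps j D)) (hjk : 12 * j + 3 ≤ k + e) :
    ¬ IsHeckeEigenform (2 * k + 2 * e) (aCoeff D k e) ∧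
    (Even e → (∃ n, 1 ≤ n ∧ aCoeff D k e n ≠ 0) ∧
      ¬ ∃ l : ℂ, ∀ n, 1 ≤ n →
        hecke (2 * k + 2 * e) 2 (aCoeff D k e) n = l * aCoeff D k e n) := by
  have hev : Even e → ¬ ∃ l : ℂ, ∀ n, 1 ≤ n →
      hecke (2 * k + 2 * e) 2 (aCoeff D k e) n = l * aCoeff D k e n := by
    intro h
    have he2 : 2 ≤ e := by
      obtain ⟨m, hm⟩ := h
      omega
    exact main_eig_sq D k e j hD hsq hk h he2 hpar hj hjk
  refine ⟨?_, fun h ↦ ⟨?_, hev h⟩⟩
  · rcases Nat.even_or_odd e with h | h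
    · rintro ⟨_, h2⟩
      exact hev h (h2 2 (by norm_num))
    · exact not_eig_odd D k e h
  · by_contra hz
    push Not at hz
    refine hev h ⟨0, fun n hn ↦ ?_⟩
    rw [zero_mul]
    unfold hecke
    refine Finset.sum_eq_zero fun d hd ↦ ?_
    have hd1 : d ∣ Nat.gcd 2 n := Nat.dvd_of_mem_divisors hd
    have hd2 : d ^ 2 ∣ 2 * n := by
      rw [sq]
      exact mul_dvd_mul (hd1.trans (Nat.gcd_dvd_left 2 n)) (hd1.trans (Nat.gcd_dvd_right 2 n))
    have hd0 : 0 < d := Nat.pos_of_mem_divisors hd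
    rw [hz _ (Nat.div_pos (Nat.le_of_dvd (by omega) hd2) (by positivity)), mul_zero]

/-- Let `D` be odd squarefree, `k ≥ 3`, `e ≥ 1`, `χ_D(-1) = (-1)^k` and `k + e = 12` or
`k + e ≥ 14`, that is, `dim S_{2k+2e} > 1`. Then `F_{D,k,e}` is not a Hecke eigenform if
`k + e ≤ 206`, and also if for some `j` with `k + e ≥ 12 j + 3` the number of ordered
representations of `D` as a sum of `j` squares of positive odd integers is odd; in the second case
`F_{D,k,e}` is, for even `e`, nonzero and not even an eigenvector of `T_2`. The second condition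
holds, with `j = D`, for every `D` if `k + e ≥ 12 D + 3`. For every prime `D` congruent to `3` or
`5` modulo `8` one of the two conditions holds for all `k, e`, so that `F_{D,k,e}` is never a
Hecke eigenform. -/
theorem result (D k e : ℕ) (hD : Odd D) (hsq : Squarefree D) (hk : 3 ≤ k) (he : 1 ≤ e)
    (hpar : jacobiSym (-1) D = (-1) ^ k) (hdim : k + e = 12 ∨ 14 ≤ k + e) :
    ((k + e ≤ 206 ∨ ∃ j, Odd (oddReps j D) ∧ 12 * j + 3 ≤ k + e) →
      ¬ IsHeckeEigenform (2 * k + 2 * e) (aCoeff D k e)) ∧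
    (∀ j, Odd (oddReps j D) → 12 * j + 3 ≤ k + e → Even e →
      (∃ n, 1 ≤ n ∧ aCoeff D k e n ≠ 0) ∧
      ¬ ∃ l : ℂ, ∀ n, 1 ≤ n →
        hecke (2 * k + 2 * e) 2 (aCoeff D k e) n = l * aCoeff D k e n) ∧
    (12 * D + 3 ≤ k + e → ¬ IsHeckeEigenform (2 * k + 2 * e) (aCoeff D k e)) ∧
    (D.Prime → (D % 8 = 3 ∨ D % 8 = 5) →
      ¬ IsHeckeEigenform (2 * k + 2 * e) (aCoeff D k e)) := by
  have h0 : (k + e ≤ 206 ∨ ∃ j, Odd (oddReps j D) ∧ 12 * j + 3 ≤ k + e) →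
      ¬ IsHeckeEigenform (2 * k + 2 * e) (aCoeff D k e) := by
    rintro (h | ⟨j, hj, hjk⟩)
    · exact small_not_eig D k e hD hsq hk he hpar (by omega)
    · exact (strong D k e j hD hsq hk he hpar hj hjk).1
  refine ⟨h0, fun j hj hjk h ↦ (strong D k e j hD hsq hk he hpar hj hjk).2 h, fun h ↦ ?_, ?_⟩
  · exact h0 (Or.inr ⟨D, by rw [oddReps_self]; exact odd_one, h⟩)
  · intro hp h8
    have hj : ∃ j ≤ 5, Odd (oddReps j D) := by
      rcases h8 with h8 | h8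
      · exact ⟨3, by norm_num, oddReps_three D hp h8⟩
      · exact ⟨5, by norm_num, oddReps_five D hp h8⟩
    obtain ⟨j, hj5, hjo⟩ := hj
    by_cases hs : k + e ≤ 206
    · exact h0 (Or.inl hs)
    · exact h0 (Or.inr ⟨j, hjo, by omega⟩)

end Pool.Agent.Results.MP_836e4b_nt.NotEigenAllWeights
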